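import Pool.Agent.Lib.Ridout.Poly

namespace Pool.Agent.Lib.Ridout

open Finset MvPolynomial Filter Real

variable {m : ℕ}

theorem dvd_part {r : Fin m → ℕ} (p : ℕ) (hp : 1 < p) (u : Box r → ℤ) (Z : Fin m → ℤ)
    (e : Fin m → ℕ) (hZ : ∀ h, (p : ℤ) ^ e h ∣ Z h) (s : Box r → Fin m → ℕ)
    (W : Box r → Fin m → ℤ) (A : ℝ)
    (hA : ∀ i, u i ≠ 0 → A ≤ ∑ h, (e h * log p) * s i h) :
    (p : ℤ) ^ ⌈A / log p⌉₊ ∣ ∑ i, u i * ∏ h, (W i h * Z h ^ s i h) := by
  have hl : 0 < log p := log_pos (by exact_mod_cast hp)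
  apply dvd_sum
  intro i _
  by_cases hu : u i = 0
  · simp [hu]
  apply Dvd.dvd.mul_left
  have h1 : ⌈A / log p⌉₊ ≤ ∑ h, e h * s i h := by
    rw [Nat.ceil_le, div_le_iff₀ hl]
    refine (hA i hu).trans (le_of_eq ?_)
    push_cast
    rw [sum_mul]
    apply sum_congr rfl
    intro _ _
    ring
  refine (pow_dvd_pow _ h1).trans ?_
  rw [← prod_pow_eq_pow_sum]
  apply Finset.prod_dvd_prod_of_dvd
  intro h _
  apply Dvd.dvd.mul_left
  rw [pow_mul]
  exact pow_dvd_pow_of_dvd (hZ h) _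

theorem core_ineq {r : Fin m → ℕ} (p q : ℕ) (hp : 1 < p) (hq : 1 < q) (hpq : p.Coprime q)
    (u : Box r → ℤ) (X Y : Fin m → ℤ) (e J : Fin m → ℕ) (j : Fin m →₀ ℕ) (K A1 A2 A3 : ℝ)
    (hX : ∀ h, (p : ℤ) ^ e h ∣ X h) (hY : ∀ h, (q : ℤ) ^ J h ∣ Y h) (hY0 : ∀ h, Y h ≠ 0)
    (hXY : ∀ h, X h ≠ Y h) (hle : ∀ h, |X h - Y h| ≤ |Y h|)
    (h1 : ∀ i, u i ≠ 0 → A1 ≤ ∑ h, (e h * log p) * (((i h : ℕ) : ℝ) - j h))
    (h2 : ∀ i, u i ≠ 0 → A2 ≤ ∑ h, (J h * log q) * ((r h : ℝ) - (i h : ℕ)))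
    (h3 : ∀ i, Tm (fun i => (u i : ℚ)) i ≠ 0 →
      A3 ≤ ∑ h, (log |(Y h : ℝ)| - log |(X h : ℝ) - Y h|) * (((i h : ℕ) : ℝ) - j h))
    (hK : ∑ i, |((Tm (fun i => (u i : ℚ)) i : ℚ) : ℝ)| ≤ K)
    (hG : coeff j (tau (fun h => (X h : ℚ) / Y h) (PB fun i => (u i : ℚ))) ≠ 0) :
    exp (A1 + A2 + A3) ≤ K * 2 ^ (∑ h, r h) * exp (∑ h, r h * log |(Y h : ℝ)|) := by
  have lp : 0 < log p := log_pos (by exact_mod_cast hp)
  have lq : 0 < log q := log_pos (by exact_mod_cast hq)
  set G := coeff j (tau (fun h => (X h : ℚ) / Y h) (PB fun i => (u i : ℚ))) with hGd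
  set N : ℤ := ∑ i, u i * ∏ h, ((((i h : ℕ).choose (j h) : ℕ) : ℤ) *
    Y h ^ (r h - ((i h : ℕ) - j h)) * X h ^ ((i h : ℕ) - j h)) with hN
  have hNG : (N : ℚ) = G * ∏ h, (Y h : ℚ) ^ r h := by
    rw [hGd, coeff_tau_PB, sum_mul, hN]
    push_cast
    apply sum_congr rfl
    intro i _
    rw [mul_assoc, ← prod_mul_distrib]
    congr 1
    apply prod_congr rfl
    intro h _
    have a1 : (Y h : ℚ) ≠ 0 := by exact_mod_cast hY0 h
    have a2 : (i h : ℕ) - j h ≤ r h := by have := (i h).2; omega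
    rw [div_pow, pow_sub₀ _ a1 a2]
    field_simp
  have hN0 : N ≠ 0 := by
    intro h
    rw [h] at hNG
    have : ∏ h, (Y h : ℚ) ^ r h ≠ 0 :=
      prod_ne_zero_iff.2 fun h _ => pow_ne_zero _ (by exact_mod_cast hY0 h)
    exact mul_ne_zero hG this (by simpa using hNG.symm)
  have d1 : (p : ℤ) ^ ⌈A1 / log p⌉₊ ∣ N := by
    apply dvd_part p hp u X e hX
    intro i hi
    refine (h1 i hi).trans (sum_le_sum fun h _ => ?_)
    apply mul_le_mul_of_nonneg_left _ (by positivity)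
    rcases le_total (j h) (i h : ℕ) with c | c
    · rw [Nat.cast_sub c]
    · have : ((i h : ℕ) : ℝ) ≤ j h := by exact_mod_cast c
      have : (0 : ℝ) ≤ ((i h : ℕ) - j h : ℕ) := by positivity
      linarith
  have d2 : (q : ℤ) ^ ⌈A2 / log q⌉₊ ∣ N := by
    have e1 : N = ∑ i, u i * ∏ h, ((((i h : ℕ).choose (j h) : ℕ) : ℤ) *
        X h ^ ((i h : ℕ) - j h) * Y h ^ (r h - ((i h : ℕ) - j h))) := by
      rw [hN]
      simp only [mul_right_comm]
    rw [e1]
    apply dvd_part q hq u Y J hY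
    intro i hi
    refine (h2 i hi).trans (sum_le_sum fun h _ => ?_)
    apply mul_le_mul_of_nonneg_left _ (by positivity)
    have c1 : (i h : ℕ) ≤ r h := by have := (i h).2; omega
    rw [← Nat.cast_sub c1, Nat.cast_le]
    omega
  have d3 : (p : ℤ) ^ ⌈A1 / log p⌉₊ * (q : ℤ) ^ ⌈A2 / log q⌉₊ ∣ N :=
    IsCoprime.mul_dvd (IsCoprime.pow (Nat.isCoprime_iff_coprime.2 hpq)) d1 d2
  have d4 : exp (A1 + A2) ≤ |(N : ℝ)| := by
    have a1 := Int.le_of_dvd (abs_pos.2 hN0) ((dvd_abs _ _).2 d3)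
    have a2 : (p : ℝ) ^ ⌈A1 / log p⌉₊ * (q : ℝ) ^ ⌈A2 / log q⌉₊ ≤ |(N : ℝ)| := by
      exact_mod_cast a1
    have a3 : ∀ (p : ℕ) (A : ℝ), 1 < p → exp A ≤ (p : ℝ) ^ ⌈A / log p⌉₊ := by
      intro p A hp
      have lp : 0 < log p := log_pos (by exact_mod_cast hp)
      have := Nat.le_ceil (A / log p)
      rw [div_le_iff₀ lp] at this
      refine (exp_le_exp.2 this).trans (le_of_eq ?_)
      rw [exp_nat_mul, exp_log (by positivity)]
    rw [exp_add]
    exact (mul_le_mul (a3 p A1 hp) (a3 q A2 hq) (exp_pos _).le (by positivity)).trans a2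
  have d5 : |(G : ℝ)| ≤ K * 2 ^ (∑ h, r h) * exp (-A3) := by
    have e1 : (fun h => (X h : ℚ) / Y h) = (fun h => (X h : ℚ) / Y h - 1) + 1 := by
      funext h; simp
    rw [hGd, e1, ← tau_tau, tau_one_PB, coeff_tau_PB]
    push_cast
    refine (abs_sum_le_sum_abs _ _).trans ?_
    rw [mul_assoc]
    refine le_trans ?_ (mul_le_mul_of_nonneg_right hK (by positivity))
    rw [sum_mul]
    apply sum_le_sum
    intro i _
    by_cases hi : Tm (fun i => (u i : ℚ)) i = 0
    · simp [hi]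
    rw [abs_mul]
    apply mul_le_mul_of_nonneg_left _ (abs_nonneg _)
    have b0 := h3 i hi
    set c : Fin m → ℝ := fun h => log |(Y h : ℝ)| - log |(X h : ℝ) - Y h| with hc
    have hY' : ∀ h, (0 : ℝ) < |(Y h : ℝ)| := fun h => abs_pos.2 (by exact_mod_cast hY0 h)
    have hXY' : ∀ h, (0 : ℝ) < |(X h : ℝ) - Y h| := fun h =>
      abs_pos.2 (sub_ne_zero.2 (by exact_mod_cast hXY h))
    have hc0 : ∀ h, 0 ≤ c h := fun h =>
      sub_nonneg.2 (log_le_log (hXY' h) (by exact_mod_cast hle h))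
    have b1 : ∀ h, |(X h : ℝ) / Y h - 1| = exp (-c h) := by
      intro h
      have : (Y h : ℝ) ≠ 0 := by exact_mod_cast hY0 h
      simp only [hc]
      rw [neg_sub, exp_sub, exp_log (hXY' h), exp_log (hY' h), ← abs_div]
      congr 1
      field_simp
    calc |∏ h, ((((i h : ℕ).choose (j h) : ℕ) : ℝ) *
          ((X h : ℝ) / Y h - 1) ^ ((i h : ℕ) - j h))|
        ≤ ∏ h, ((2 : ℝ) ^ r h * exp (-(c h * (((i h : ℕ) : ℝ) - j h)))) := by
          rw [abs_prod]
          apply Finset.prod_le_prod (fun _ _ => abs_nonneg _)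
          intro h _
          rw [abs_mul, abs_pow, b1, Nat.abs_cast]
          rcases le_or_gt (j h) (i h : ℕ) with cc | cc
          · apply mul_le_mul _ _ (by positivity) (by positivity)
            · have c1 : (i h : ℕ).choose (j h) ≤ 2 ^ r h :=
                (Nat.choose_le_two_pow _ _).trans
                  (Nat.pow_le_pow_right (by norm_num) (by have := (i h).2; omega))
              exact_mod_cast c1
            · rw [← exp_nat_mul, Nat.cast_sub cc]
              apply le_of_eq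
              congr 1
              ring
          · rw [Nat.choose_eq_zero_of_lt cc]
            simp only [Nat.cast_zero, zero_mul]
            positivity
      _ = 2 ^ (∑ h, r h) * exp (-∑ h, c h * (((i h : ℕ) : ℝ) - j h)) := by
          rw [prod_mul_distrib, prod_pow_eq_pow_sum, ← exp_sum, sum_neg_distrib]
      _ ≤ _ := by gcongr
  have d6 : |(N : ℝ)| = |(G : ℝ)| * exp (∑ h, r h * log |(Y h : ℝ)|) := by
    have : (N : ℝ) = G * ∏ h, (Y h : ℝ) ^ r h := by exact_mod_cast hNG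
    rw [this, abs_mul, abs_prod, exp_sum]
    congr 1
    apply prod_congr rfl
    intro h _
    rw [exp_nat_mul, exp_log (abs_pos.2 (by exact_mod_cast hY0 h)), abs_pow]
  rw [d6] at d4
  calc exp (A1 + A2 + A3) = exp (A1 + A2) * exp A3 := exp_add _ _
    _ ≤ (K * 2 ^ (∑ h, r h) * exp (-A3) * exp (∑ h, r h * log |(Y h : ℝ)|)) * exp A3 := by
        gcongr
        exact d4.trans (by gcongr)
    _ = K * 2 ^ (∑ h, r h) * exp (∑ h, r h * log |(Y h : ℝ)|) * (exp (-A3) * exp A3) := by ring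
    _ = _ := by rw [← exp_add]; simp

theorem wt_bound {r : Fin m → ℕ} (hr : ∀ h, 0 < r h) (j : Fin m →₀ ℕ)
    (hj : wt (fun h => 1 / (r h : ℝ)) j < 1) (a : Fin m → ℝ) (T : ℝ) (hT : 0 ≤ T)
    (ha : ∀ h, a h * r h ≤ T) : ∑ h, a h * j h ≤ T := by
  calc ∑ h, a h * j h ≤ ∑ h, T * ((j h : ℝ) * (1 / (r h : ℝ))) := by
        apply sum_le_sum
        intro h _
        have a1 : (0 : ℝ) < r h := by exact_mod_cast hr h
        have a2 : a h ≤ T / r h := by rw [le_div_iff₀ a1]; exact ha h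
        have a3 : (0 : ℝ) ≤ j h := by positivity
        calc a h * j h ≤ T / r h * j h := mul_le_mul_of_nonneg_right a2 a3
          _ = _ := by ring
    _ = T * wt (fun h => 1 / (r h : ℝ)) j := by rw [wt, mul_sum]
    _ ≤ T := by nlinarith

/-- Schneider-type form of Ridout's theorem for the targets `0, 1, ∞`. -/
theorem schneider_ridout (p q : ℕ) (hp : 1 < p) (hq : 1 < q) (hpq : p.Coprime q)
    (ε C : ℝ) (hε : 0 < ε) (hC : 1 ≤ C) :
    ∃ᶠ L : ℕ in atTop, ∀ (X Y : ℤ) (e J : ℕ), (p : ℤ) ^ e ∣ X → (q : ℤ) ^ J ∣ Y → X ≠ Y →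
      X ≠ 0 → |X - Y| ≤ |Y| → exp L ≤ |(Y : ℝ)| → |(Y : ℝ)| ≤ exp (C * L) →
      (p : ℝ) ^ e * (q : ℝ) ^ J ≤ |(X : ℝ) - Y| * |(Y : ℝ)| * exp (ε * L) := by
  by_contra hcon
  rw [not_frequently, eventually_atTop] at hcon
  obtain ⟨L0, hL0⟩ := hcon
  push Not at hL0
  set δ := ε / (24 * (C + 1)) with hδ
  have hδ0 : 0 < δ := by positivity
  have hδ1 : δ * (C + 1) = ε / 24 := by rw [hδ]; field_simp
  obtain ⟨m, hm1, hm2⟩ : ∃ m : ℕ, 16 * (C + 1) / ε ≤ m ∧ 1 / δ ^ 2 ≤ m :=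
    ((tendsto_natCast_atTop_atTop.eventually_ge_atTop _).and
      (tendsto_natCast_atTop_atTop.eventually_ge_atTop _)).exists
  rw [div_le_iff₀ hε] at hm1
  rw [div_le_iff₀ (by positivity)] at hm2
  have hm0 : (0 : ℝ) < m := by
    by_contra h
    have : (m : ℝ) = 0 := le_antisymm (not_lt.1 h) (by positivity)
    rw [this] at hm2
    linarith
  have hm3 : exp (-(2 * δ ^ 2 * m)) ≤ 1 / 3 - 1 / 100 := by
    have a1 : exp (-(2 * δ ^ 2 * m)) ≤ exp (-2) := exp_le_exp.2 (by linarith)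
    have a2 : exp (-2) * (exp 1 * exp 1) = 1 := by rw [← exp_add, ← exp_add]; norm_num
    have a3 := exp_one_gt_d9
    have a4 := exp_pos (-2)
    have a5 : 7 ≤ exp 1 * exp 1 := by nlinarith
    have a6 := mul_le_mul_of_nonneg_left a5 a4.le
    linarith
  obtain ⟨ω, hω, haux⟩ := aux_uniform m
  obtain ⟨A, hA1, hA2⟩ : ∃ A : ℕ, 1 / ω ≤ A ∧ 1 ≤ A :=
    ((tendsto_natCast_atTop_atTop.eventually_ge_atTop _).and (eventually_ge_atTop 1)).exists
  rw [div_le_iff₀ hω] at hA1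
  set r : Fin m → ℕ := fun h => A ^ (h : ℕ) with hr
  have hr0 : ∀ h, 0 < r h := fun h => by positivity
  obtain ⟨N, hN⟩ := haux r hr0 (by
    intro h h' hh
    have a1 : A ^ ((h : ℕ) + 1) ≤ A ^ (h' : ℕ) := Nat.pow_le_pow_right hA2 hh
    have a2 : (A : ℝ) ^ ((h : ℕ) + 1) ≤ (A : ℝ) ^ (h' : ℕ) := by exact_mod_cast a1
    have a3 : (0 : ℝ) < (A : ℝ) ^ (h : ℕ) := by positivity
    simp only [hr]
    push_cast
    rw [pow_succ] at a2
    nlinarith)
  set K : ℝ := (N + 1) * 2 ^ (∑ h, r h) with hK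
  have hK0 : 0 < K := by positivity
  obtain ⟨L, hL1, hL2, hL3, hL4⟩ : ∃ L : ℕ, L0 ≤ L ∧ 1 ≤ L ∧
      (log ((N : ℝ) + 1) + 2) / ε ≤ L ∧ (log K + 1) / (ε * m / 4) ≤ L :=
    ((eventually_ge_atTop _).and ((eventually_ge_atTop _).and
      ((tendsto_natCast_atTop_atTop.eventually_ge_atTop _).and
      (tendsto_natCast_atTop_atTop.eventually_ge_atTop _)))).exists
  rw [div_le_iff₀ hε] at hL3
  rw [div_le_iff₀ (by positivity)] at hL4
  set Lh : Fin m → ℕ := fun h => L * A ^ (m - 1 - h) with hLh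
  have hLh1 : ∀ h, L ≤ Lh h := fun h => Nat.le_mul_of_pos_right _ (by positivity)
  set t : ℝ := L * A ^ (m - 1) with ht
  have ht1 : ∀ h, (Lh h : ℝ) * r h = t := by
    intro h
    simp only [hLh, hr, ht]
    push_cast
    rw [mul_assoc, ← pow_add]
    congr 2
    have := h.2
    omega
  have hL2' : (1 : ℝ) ≤ L := by exact_mod_cast hL2
  have ht2 : (L : ℝ) ≤ t := by
    have : (1 : ℝ) ≤ (A : ℝ) ^ (m - 1) := one_le_pow₀ (by exact_mod_cast hA2)
    nlinarith
  choose X Y e J hX hY hXY hX0 hle hlo hhi hbad using fun h => hL0 (Lh h) (hL1.trans (hLh1 h))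
  have lp : 0 < log p := log_pos (by exact_mod_cast hp)
  have lq : 0 < log q := log_pos (by exact_mod_cast hq)
  have hY' : ∀ h, (0 : ℝ) < |(Y h : ℝ)| := fun h => (exp_pos _).trans_le (hlo h)
  have hY0 : ∀ h, Y h ≠ 0 := fun h => by exact_mod_cast abs_pos.1 (hY' h)
  have hXY' : ∀ h, (1 : ℝ) ≤ |(X h : ℝ) - Y h| := fun h => by
    exact_mod_cast Int.one_le_abs (sub_ne_zero.2 (hXY h))
  have hle' : ∀ h, |(X h : ℝ) - Y h| ≤ |(Y h : ℝ)| := fun h => by exact_mod_cast hle h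
  set l : Fin m → ℝ := fun h => log |(Y h : ℝ)| with hl
  set a : Fin m → ℝ := fun h => e h * log p with ha
  set b : Fin m → ℝ := fun h => J h * log q with hb
  set c : Fin m → ℝ := fun h => log |(Y h : ℝ)| - log |(X h : ℝ) - Y h| with hc
  have l1 : ∀ h, l h ≤ C * Lh h := fun h => (log_le_iff_le_exp (hY' h)).2 (hhi h)
  have a0 : ∀ h, 0 ≤ a h := fun h => by positivity
  have b0 : ∀ h, 0 ≤ b h := fun h => by positivity
  have c0 : ∀ h, 0 ≤ c h := fun h =>
    sub_nonneg.2 (log_le_log (by linarith [hXY' h]) (hle' h))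
  have a1 : ∀ h, a h ≤ l h + 1 := by
    intro h
    have d1 := Int.le_of_dvd (abs_pos.2 (hX0 h)) ((dvd_abs _ _).2 (hX h))
    have d2 : (p : ℝ) ^ e h ≤ |(X h : ℝ)| := by exact_mod_cast d1
    have d3 : |(X h : ℝ)| ≤ 2 * |(Y h : ℝ)| := by
      have := abs_add_le ((X h : ℝ) - Y h) (Y h)
      rw [sub_add_cancel] at this
      linarith [hle' h]
    have d4 := log_le_log (by positivity) (d2.trans d3)
    rw [log_pow, log_mul (by norm_num) (hY' h).ne'] at d4
    have := log_two_lt_d9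
    simp only [ha, hl]
    linarith
  have b1 : ∀ h, b h ≤ l h := by
    intro h
    have d1 := Int.le_of_dvd (abs_pos.2 (hY0 h)) ((dvd_abs _ _).2 (hY h))
    have d2 : (q : ℝ) ^ J h ≤ |(Y h : ℝ)| := by exact_mod_cast d1
    have d4 := log_le_log (by positivity) d2
    rwa [log_pow] at d4
  have c1 : ∀ h, c h ≤ l h := fun h => by
    have := log_nonneg (hXY' h)
    simp only [hc, hl]
    linarith
  have habc : ∀ h, 2 * l h + ε * Lh h ≤ a h + b h + c h := by
    intro h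
    have x0 : (0 : ℝ) < |(X h : ℝ) - Y h| := by linarith [hXY' h]
    have d1 := log_le_log (by have := hY' h; positivity) (hbad h).le
    rw [log_mul (by have := hY' h; positivity) (exp_pos _).ne', log_mul x0.ne' (hY' h).ne',
      log_exp, log_mul (by positivity) (by positivity), log_pow, log_pow] at d1
    simp only [ha, hb, hc, hl]
    linarith
  set T := (C + 1) * t with hT
  have hT0 : 0 < T := by have : 0 < t := by linarith
                         positivity
  have hTb : ∀ (h : Fin m) (x : ℝ), x ≤ l h + 1 → x * r h ≤ T := by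
    intro h x hx
    have d1 : (1 : ℝ) ≤ Lh h := hL2'.trans (by exact_mod_cast hLh1 h)
    have d2 : x ≤ (C + 1) * Lh h := by linarith [l1 h]
    have d3 : (0 : ℝ) ≤ r h := by positivity
    calc x * r h ≤ (C + 1) * Lh h * r h := mul_le_mul_of_nonneg_right d2 d3
      _ = T := by rw [mul_assoc, ht1]
  have aT : ∀ h, a h * r h ≤ T := fun h => hTb h _ (a1 h)
  have bT : ∀ h, b h * r h ≤ T := fun h => hTb h _ (by linarith [b1 h])
  have cT : ∀ h, c h * r h ≤ T := fun h => hTb h _ (by linarith [c1 h])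
  have H1 := hoeffding r a T δ hT0 hδ0 (fun h => by rw [abs_of_nonneg (a0 h)]; exact aT h)
  have H2 := hoeffding r (fun h => -b h) T δ hT0 hδ0
    (fun h => by rw [abs_neg, abs_of_nonneg (b0 h)]; exact bT h)
  have H3 := hoeffding r c T δ hT0 hδ0 (fun h => by rw [abs_of_nonneg (c0 h)]; exact cT h)
  set B1 := univ.filter fun i : Box r =>
    ∑ h, a h * (((i h : ℕ) : ℝ) - r h / 2) < -(δ * m * T) with hB1
  set B2 := univ.filter fun i : Box r =>
    ∑ h, -b h * (((i h : ℕ) : ℝ) - r h / 2) < -(δ * m * T) with hB2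
  set B3 := univ.filter fun i : Box r =>
    ∑ h, c h * (((i h : ℕ) : ℝ) - r h / 2) < -(δ * m * T) with hB3
  obtain ⟨u, hu0, hu1, huK, hξ⟩ := hN (B1 ∪ B2) B3 (by
    have d1 : ((B1 ∪ B2).card : ℝ) ≤ B1.card + B2.card := by exact_mod_cast card_union_le _ _
    have d2 : (0 : ℝ) < Fintype.card (Box r) := by exact_mod_cast Fintype.card_pos
    have d3 := mul_le_mul_of_nonneg_left hm3 d2.le
    have : (((B1 ∪ B2).card + B3.card : ℕ) : ℝ) < Fintype.card (Box r) := by
      push_cast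
      linarith
    exact_mod_cast this)
  obtain ⟨j, hj1, hj2⟩ := hξ (fun h => (X h : ℚ) / Y h) (by
    intro h
    have y0 : (Y h : ℝ) ≠ 0 := by exact_mod_cast hY0 h
    constructor
    · intro e
      rw [div_eq_one_iff_eq (by exact_mod_cast hY0 h)] at e
      exact hXY h (by exact_mod_cast e)
    · have x0 : (0 : ℝ) < |(X h : ℝ) - Y h| := by linarith [hXY' h]
      have d1 : |(X h : ℝ) / Y h - 1| = exp (-c h) := by
        simp only [hc]
        rw [neg_sub, exp_sub, exp_log x0, exp_log (hY' h), ← abs_div]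
        congr 1
        field_simp
      push_cast
      rw [d1, one_div, ← exp_log (show (0 : ℝ) < N + 1 by positivity), ← exp_neg, exp_lt_exp]
      have d2 : (L : ℝ) ≤ Lh h := by exact_mod_cast hLh1 h
      have d3 := mul_le_mul_of_nonneg_left d2 hε.le
      linarith [habc h, a1 h, b1 h])
  have ja := wt_bound hr0 j hj1 a T hT0.le aT
  have jc := wt_bound hr0 j hj1 c T hT0.le cT
  have split : ∀ (x y z w : Fin m → ℝ), ∑ h, x h * (y h - z h) =
      ∑ h, x h * (y h - w h / 2) + (∑ h, x h * w h) / 2 - ∑ h, x h * z h := by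
    intro x y z w
    rw [sum_div, ← sum_add_distrib, ← sum_sub_distrib]
    apply sum_congr rfl
    intro _ _
    ring
  have key := core_ineq p q hp hq hpq u X Y e J j (N + 1)
    ((∑ h, a h * r h) / 2 - δ * m * T - T) ((∑ h, b h * r h) / 2 - δ * m * T)
    ((∑ h, c h * r h) / 2 - δ * m * T - T) hX hY hY0 hXY hle
    (by
      intro i hi
      have d1 : i ∉ B1 := fun h => hi (hu0 i (mem_union_left _ h))
      simp only [hB1, mem_filter, mem_univ, true_and, not_lt] at d1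
      rw [split a (fun h => ((i h : ℕ) : ℝ)) (fun h => j h) (fun h => r h)]
      linarith)
    (by
      intro i hi
      have d1 : i ∉ B2 := fun h => hi (hu0 i (mem_union_right _ h))
      simp only [hB2, mem_filter, mem_univ, true_and, not_lt] at d1
      have d2 : ∑ h, b h * ((r h : ℝ) - (i h : ℕ)) =
          ∑ h, -b h * (((i h : ℕ) : ℝ) - r h / 2) + (∑ h, b h * r h) / 2 := by
        rw [sum_div, ← sum_add_distrib]
        apply sum_congr rfl
        intro _ _
        ring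
      rw [d2]
      linarith)
    (by
      intro i hi
      have d1 : i ∉ B3 := fun h => hi (hu1 i h)
      simp only [hB3, mem_filter, mem_univ, true_and, not_lt] at d1
      rw [split c (fun h => ((i h : ℕ) : ℝ)) (fun h => j h) (fun h => r h)]
      linarith)
    (by linarith) hj2
  rw [← hK, ← exp_log hK0, ← exp_add, exp_le_exp] at key
  have tot : 2 * ∑ h, r h * l h + ε * m * t ≤
      ∑ h, a h * r h + ∑ h, b h * r h + ∑ h, c h * r h := by
    have : ε * m * t = ∑ h : Fin m, ε * Lh h * r h := by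
      simp only [mul_assoc, ht1]
      rw [sum_const, card_univ, Fintype.card_fin, nsmul_eq_mul]
      ring
    rw [this, mul_sum, ← sum_add_distrib, ← sum_add_distrib, ← sum_add_distrib]
    apply sum_le_sum
    intro h _
    have d3 : (0 : ℝ) ≤ r h := by positivity
    have := mul_le_mul_of_nonneg_right (habc h) d3
    linarith
  have f1 : δ * m * T = ε * m * t / 24 := by
    rw [hT]; linear_combination (m * t) * hδ1
  have f2 : 16 * T ≤ ε * m * t := by
    have : 0 ≤ t := by linarith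
    rw [hT]; nlinarith
  have f3 : L * (ε * m / 4) ≤ t * (ε * m / 4) := mul_le_mul_of_nonneg_right ht2 (by positivity)
  simp only [hl] at tot
  linarith

end Pool.Agent.Lib.Ridout
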