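import Pool.Agent.Lib.Ridout.Zero

namespace Pool.Agent.Lib.Ridout

open Finset MvPolynomial Filter

theorem coeff_tau_monomial {σ : Type*} [Fintype σ] [DecidableEq σ] (ξ : σ → ℚ) (i j : σ →₀ ℕ)
    (c : ℚ) : coeff j (tau ξ (monomial i c)) =
      c * ∏ h, (((i h).choose (j h) : ℚ) * ξ h ^ (i h - j h)) := by
  have e1 : tau ξ (monomial i c) = C c * ∏ h, (X h + C (ξ h)) ^ i h := by
    rw [tau, aeval_monomial, Finsupp.prod_fintype _ _ (by simp)]
    rfl
  have e2 : ∀ h, (X h + C (ξ h) : MvPolynomial σ ℚ) ^ i h = ∑ s ∈ range (i h + 1),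
      monomial (Finsupp.single h s) (((i h).choose s : ℚ) * ξ h ^ (i h - s)) := by
    intro h
    rw [add_pow]
    apply sum_congr rfl
    intro s _
    rw [X_pow_eq_monomial, ← map_pow, ← map_natCast (C : ℚ →+* MvPolynomial σ ℚ), mul_assoc,
      ← map_mul, mul_comm, C_mul_monomial]
    congr 1
    ring
  have e3 : ∀ (s : Finset σ) (f : σ → σ →₀ ℕ) (g : σ → ℚ),
      ∏ h ∈ s, monomial (f h) (g h) = monomial (∑ h ∈ s, f h) (∏ h ∈ s, g h) := by
    intro s f g
    induction s using Finset.induction_on with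
    | empty => simp
    | insert a s ha ih => rw [prod_insert ha, sum_insert ha, prod_insert ha, ih, monomial_mul]
  have e4 : ∀ (p : σ → ℕ) (h : σ), (∑ h, Finsupp.single h (p h)) h = p h := by
    intro p h
    rw [Finsupp.finsetSum_apply, sum_eq_single h]
    · simp
    · intro b _ hb; simp [hb.symm]
    · simp
  rw [e1, coeff_C_mul]
  congr 1
  simp only [e2]
  rw [prod_univ_sum, coeff_sum]
  simp only [e3, coeff_monomial]
  rw [sum_eq_single (fun h => j h)]
  · rw [if_pos]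
    ext h
    rw [e4]
  · intro p _ hp
    rw [if_neg]
    intro e
    apply hp
    funext h
    rw [← e, e4]
  · intro hj
    rw [if_pos (by ext h; rw [e4])]
    rw [Fintype.mem_piFinset] at hj
    push Not at hj
    obtain ⟨h, hh⟩ := hj
    apply prod_eq_zero (mem_univ h)
    rw [Nat.choose_eq_zero_of_lt (by simpa using hh)]
    simp

variable {m : ℕ}

/-- exponent box -/
abbrev Box (r : Fin m → ℕ) := ∀ h : Fin m, Fin (r h + 1)

noncomputable def toF {r : Fin m → ℕ} (i : Box r) : Fin m →₀ ℕ :=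
  Finsupp.equivFunOnFinite.symm fun h => (i h : ℕ)

@[simp] theorem toF_apply {r : Fin m → ℕ} (i : Box r) (h : Fin m) : toF i h = i h := rfl

theorem toF_inj {r : Fin m → ℕ} {i j : Box r} (h : toF i = toF j) : i = j := by
  funext t
  exact Fin.ext (by simpa using congrArg (fun f => f t) h)

noncomputable def PB {r : Fin m → ℕ} (c : Box r → ℚ) : MvPolynomial (Fin m) ℚ :=
  ∑ i, monomial (toF i) (c i)

theorem coeff_PB {r : Fin m → ℕ} (c : Box r → ℚ) (j : Box r) : coeff (toF j) (PB c) = c j := by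
  rw [PB, coeff_sum, sum_eq_single j]
  · simp
  · intro b _ hb
    rw [coeff_monomial, if_neg fun h => hb (toF_inj h)]
  · simp

theorem coeff_PB_ne {r : Fin m → ℕ} (c : Box r → ℚ) (j : Fin m →₀ ℕ) (hj : coeff j (PB c) ≠ 0)
    (h : Fin m) : j h ≤ r h := by
  rw [PB, coeff_sum] at hj
  obtain ⟨i, _, hi⟩ := exists_ne_zero_of_sum_ne_zero hj
  rw [coeff_monomial] at hi
  split_ifs at hi with e
  · rw [← e, toF_apply]; have := (i h).2; omega
  · exact absurd rfl hi

theorem coeff_tau_PB {r : Fin m → ℕ} (c : Box r → ℚ) (ξ : Fin m → ℚ) (j : Fin m →₀ ℕ) :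
    coeff j (tau ξ (PB c)) =
      ∑ i, c i * ∏ h, ((((i h : ℕ).choose (j h) : ℕ) : ℚ) * ξ h ^ ((i h : ℕ) - j h)) := by
  rw [PB, map_sum, coeff_sum]
  simp only [coeff_tau_monomial, toF_apply]

/-- Taylor coefficients at the point `1` -/
def Tm {r : Fin m → ℕ} (c : Box r → ℚ) (j : Box r) : ℚ :=
  ∑ i, c i * ∏ h, (((i h : ℕ).choose (j h) : ℕ) : ℚ)

theorem tau_one_PB {r : Fin m → ℕ} (c : Box r → ℚ) : tau 1 (PB c) = PB (Tm c) := by
  ext j
  rw [coeff_tau_PB]
  by_cases hj : ∀ h, j h ≤ r h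
  · have e : j = toF (fun h => (⟨j h, Nat.lt_succ_of_le (hj h)⟩ : Fin (r h + 1))) := by
      ext h; rfl
    rw [e, coeff_PB]
    simp [Tm]
  · have : coeff j (PB (Tm c)) = 0 := by
      by_contra h
      exact hj (coeff_PB_ne _ _ h)
    rw [this]
    push Not at hj
    obtain ⟨h, hh⟩ := hj
    apply sum_eq_zero
    intro i _
    rw [prod_eq_zero (mem_univ h), mul_zero]
    rw [Nat.choose_eq_zero_of_lt (by have := (i h).2; omega)]
    simp

theorem exists_aux {r : Fin m → ℕ} (B0 B1 : Finset (Box r))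
    (hB : B0.card + B1.card < Fintype.card (Box r)) :
    ∃ u : Box r → ℤ, u ≠ 0 ∧ (∀ i ∈ B0, u i = 0) ∧ ∀ j ∈ B1, Tm (fun i => (u i : ℚ)) j = 0 := by
  let F : (Box r → ℚ) →ₗ[ℚ] (B0 → ℚ) × (B1 → ℚ) :=
    { toFun := fun c => (fun i => c i, fun j => Tm c j)
      map_add' := by
        intro c d
        ext x <;> simp [Tm, add_mul, sum_add_distrib]
      map_smul' := by
        intro a c
        ext x <;> simp [Tm, mul_sum, mul_assoc] }
  have hk := F.ker_ne_bot_of_finrank_lt (by simpa using hB)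
  obtain ⟨c, hc, hc0⟩ := (Submodule.ne_bot_iff _).1 hk
  rw [LinearMap.mem_ker] at hc
  obtain ⟨b, hb⟩ := IsLocalization.exist_integer_multiples_of_finite (nonZeroDivisors ℤ) c
  choose u hu using hb
  have hu' : ∀ i, (u i : ℚ) = ((b : ℤ) : ℚ) * c i := by
    intro i
    have := hu i
    simpa using this
  have hb0 : ((b : ℤ) : ℚ) ≠ 0 := by exact_mod_cast nonZeroDivisors.coe_ne_zero b
  refine ⟨u, ?_, ?_, ?_⟩
  · intro h
    apply hc0
    funext i
    have := hu' i
    rw [h] at this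
    simpa [hb0] using this.symm
  · intro i hi
    have h1 : c i = 0 := congrFun (congrArg Prod.fst hc) ⟨i, hi⟩
    have := hu' i
    rw [h1, mul_zero] at this
    exact_mod_cast this
  · intro j hj
    have h1 : Tm c j = 0 := congrFun (congrArg Prod.snd hc) ⟨j, hj⟩
    simp only [Tm, hu', mul_assoc] at h1 ⊢
    rw [← mul_sum, h1, mul_zero]

theorem aux_uniform (m : ℕ) : ∃ ω : ℝ, 0 < ω ∧ ∀ r : Fin m → ℕ, (∀ h, 0 < r h) →
    (∀ h h', h < h' → (r h : ℝ) ≤ ω * r h') → ∃ N : ℕ, ∀ B0 B1 : Finset (Box r),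
      B0.card + B1.card < Fintype.card (Box r) → ∃ u : Box r → ℤ, (∀ i ∈ B0, u i = 0) ∧
        (∀ j ∈ B1, Tm (fun i => (u i : ℚ)) j = 0) ∧
        (∑ j, |((Tm (fun i => (u i : ℚ)) j : ℚ) : ℝ)| ≤ N) ∧
        ∀ ξ : Fin m → ℚ, (∀ h, ξ h ≠ 1 ∧ |(ξ h : ℝ) - 1| < 1 / ((N : ℝ) + 1)) →
          ∃ j : Fin m →₀ ℕ, wt (fun h => 1 / (r h : ℝ)) j < 1 ∧
            coeff j (tau ξ (PB fun i => (u i : ℚ))) ≠ 0 := by
  obtain ⟨ω, hω, hz⟩ := zero_lemma m 1 one_pos
  refine ⟨ω, hω, fun r hr hrω => ?_⟩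
  apply Eventually.exists (f := atTop)
  rw [eventually_all]
  intro B0
  rw [eventually_all]
  intro B1
  by_cases hB : B0.card + B1.card < Fintype.card (Box r)
  swap
  · exact Eventually.of_forall fun _ h => absurd h hB
  obtain ⟨u, hu, h0, h1⟩ := exists_aux B0 B1 hB
  obtain ⟨E, hE⟩ := hz r hr hrω (PB fun i => (u i : ℚ)) (by
    intro h
    apply hu
    funext i
    have := coeff_PB (fun i => (u i : ℚ)) i
    rw [h, coeff_zero] at this
    exact_mod_cast this.symm) (coeff_PB_ne _)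
  have a1 : ∀ᶠ N : ℕ in atTop, ∀ x ∈ E, x ≠ 1 → 1 / ((N : ℝ) + 1) ≤ |(x : ℝ) - 1| := by
    rw [eventually_all_finset]
    intro x _
    by_cases hx : x = 1
    · exact Eventually.of_forall fun _ h => absurd hx h
    have : 0 < |(x : ℝ) - 1| := by
      rw [abs_pos, sub_ne_zero]; exact_mod_cast hx
    filter_upwards [tendsto_one_div_add_atTop_nhds_zero_nat.eventually (gt_mem_nhds this)]
      with N hN _ using hN.le
  filter_upwards [a1, tendsto_natCast_atTop_atTop.eventually_ge_atTop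
    (∑ j, |((Tm (fun i => (u i : ℚ)) j : ℚ) : ℝ)|)] with N hN hN2 _
  refine ⟨u, h0, h1, hN2, fun ξ hξ => ?_⟩
  have := hE ξ (fun h hh => absurd (hN _ hh (hξ h).1) (not_le.2 (hξ h).2))
  unfold Van at this
  push Not at this
  obtain ⟨j, hj, hj2⟩ := this
  exact ⟨j, hj2, hj⟩

theorem hoeff_one (r : ℕ) (s : ℝ) :
    ∑ a : Fin (r + 1), Real.exp (s * (((a : ℕ) : ℝ) - r / 2)) ≤
      (r + 1) * Real.exp (s ^ 2 * r ^ 2 / 8) := by
  have e1 : ∑ a : Fin (r + 1), Real.exp (s * (((a : ℕ) : ℝ) - r / 2)) =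
      ∑ a : Fin (r + 1), Real.exp (-(s * (((a : ℕ) : ℝ) - r / 2))) := by
    rw [← Equiv.sum_comp Fin.revPerm]
    apply sum_congr rfl
    intro a _
    congr 1
    have := a.2
    rw [Fin.revPerm_apply, Fin.val_rev, Nat.cast_sub (by omega)]
    push_cast
    ring
  have e2 : ∑ a : Fin (r + 1), (Real.exp (s * (((a : ℕ) : ℝ) - r / 2)) +
      Real.exp (-(s * (((a : ℕ) : ℝ) - r / 2)))) ≤
      ∑ _a : Fin (r + 1), 2 * Real.exp (s ^ 2 * r ^ 2 / 8) := by
    apply sum_le_sum
    intro a _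
    have h1 := Real.cosh_le_exp_half_sq (s * (((a : ℕ) : ℝ) - r / 2))
    rw [Real.cosh_eq] at h1
    have h2 : (s * (((a : ℕ) : ℝ) - r / 2)) ^ 2 / 2 ≤ s ^ 2 * r ^ 2 / 8 := by
      have b1 : ((a : ℕ) : ℝ) ≤ r := by exact_mod_cast Nat.le_of_lt_succ a.2
      have b2 : (0 : ℝ) ≤ (a : ℕ) := by positivity
      have b3 : (((a : ℕ) : ℝ) - r / 2) ^ 2 ≤ r ^ 2 / 4 := by nlinarith
      rw [mul_pow]
      nlinarith [sq_nonneg s]
    have := Real.exp_le_exp.2 h2
    linarith
  rw [sum_add_distrib, ← e1, sum_const, card_univ, Fintype.card_fin, nsmul_eq_mul] at e2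
  push_cast at e2
  linarith

theorem hoeffding (r : Fin m → ℕ) (t : Fin m → ℝ) (T δ : ℝ) (hT : 0 < T) (hδ : 0 < δ)
    (ht : ∀ h, |t h| * r h ≤ T) :
    ((univ.filter fun i : Box r =>
      ∑ h, t h * (((i h : ℕ) : ℝ) - r h / 2) < -(δ * m * T)).card : ℝ) ≤
      Fintype.card (Box r) * Real.exp (-(2 * δ ^ 2 * m)) := by
  set l := 4 * δ / T with hl
  have hl0 : 0 < l := by positivity
  have hlT : l * T = 4 * δ := by rw [hl]; field_simp
  calc ((univ.filter fun i : Box r =>
      ∑ h, t h * (((i h : ℕ) : ℝ) - r h / 2) < -(δ * m * T)).card : ℝ)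
      ≤ ∑ i : Box r, (∏ h, Real.exp (-(l * t h) * (((i h : ℕ) : ℝ) - r h / 2))) *
          Real.exp (-(4 * δ ^ 2 * m)) := by
        rw [card_eq_sum_ones, Nat.cast_sum, sum_filter]
        apply sum_le_sum
        intro i _
        split_ifs with h
        · rw [← Real.exp_sum, ← Real.exp_add, Nat.cast_one]
          apply Real.one_le_exp
          have e : ∑ h, -(l * t h) * (((i h : ℕ) : ℝ) - r h / 2) =
              -l * ∑ h, t h * (((i h : ℕ) : ℝ) - r h / 2) := by
            rw [mul_sum]; apply sum_congr rfl; intro _ _; ring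
          rw [e]
          have := mul_lt_mul_of_pos_left h hl0
          have e2 : l * -(δ * m * T) = -(4 * δ ^ 2 * m) := by
            linear_combination (-(δ * m)) * hlT
          linarith
        · positivity
    _ = (∏ h, ∑ a : Fin (r h + 1), Real.exp (-(l * t h) * (((a : ℕ) : ℝ) - r h / 2))) *
          Real.exp (-(4 * δ ^ 2 * m)) := by
        rw [← sum_mul, prod_univ_sum, Fintype.piFinset_univ]
    _ ≤ (∏ h, (((r h : ℝ) + 1) * Real.exp (2 * δ ^ 2))) * Real.exp (-(4 * δ ^ 2 * m)) := by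
        apply mul_le_mul_of_nonneg_right _ (Real.exp_pos _).le
        apply Finset.prod_le_prod
        · intro h _; positivity
        · intro h _
          refine (hoeff_one _ _).trans ?_
          apply mul_le_mul_of_nonneg_left _ (by positivity)
          apply Real.exp_le_exp.2
          have b1 : (|t h| * r h) ^ 2 ≤ T ^ 2 := pow_le_pow_left₀ (by positivity) (ht h) 2
          rw [mul_pow, sq_abs] at b1
          have b2 := mul_le_mul_of_nonneg_left b1 (sq_nonneg l)
          have b3 : l ^ 2 * T ^ 2 = 16 * δ ^ 2 := by rw [← mul_pow, hlT]; ring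
          nlinarith
    _ = _ := by
        rw [prod_mul_distrib, prod_const, card_univ, Fintype.card_fin, ← Real.exp_nat_mul,
          mul_assoc, ← Real.exp_add, Fintype.card_pi]
        simp only [Fintype.card_fin]
        push_cast
        congr 2
        ring

end Pool.Agent.Lib.Ridout
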