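import Pool.Agent.Lib.Ridout.Wronsk

namespace Pool.Agent.Lib.Ridout

open Finset MvPolynomial

section Van

set_option linter.unusedSectionVars false
set_option linter.unusedSimpArgs false

variable {σ : Type*} [Fintype σ] [DecidableEq σ]

/-- weight of an exponent vector -/
def wt (w : σ → ℝ) (m : σ →₀ ℕ) : ℝ := ∑ h, (m h : ℝ) * w h

/-- all monomials have weight at least `θ` -/
def Van (w : σ → ℝ) (θ : ℝ) (Q : MvPolynomial σ ℚ) : Prop :=
  ∀ m, coeff m Q ≠ 0 → θ ≤ wt w m

omit [DecidableEq σ] in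
theorem wt_add (w : σ → ℝ) (a b : σ →₀ ℕ) : wt w (a + b) = wt w a + wt w b := by
  simp [wt, add_mul, sum_add_distrib]

theorem wt_single (w : σ → ℝ) (h : σ) : wt w (Finsupp.single h 1) = w h := by
  unfold wt
  rw [sum_eq_single h]
  · simp
  · intro b _ hb; simp [Finsupp.single_apply, hb.symm]
  · simp

variable {w : σ → ℝ}

omit [DecidableEq σ] in
theorem Van.mono {θ θ' : ℝ} {Q : MvPolynomial σ ℚ} (h : Van w θ Q) (hh : θ' ≤ θ) : Van w θ' Q :=
  fun m hm => hh.trans (h m hm)

omit [DecidableEq σ] in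
theorem Van.of_nonneg (hw : ∀ h, 0 ≤ w h) (Q : MvPolynomial σ ℚ) : Van w 0 Q :=
  fun _ _ => sum_nonneg fun h _ => mul_nonneg (Nat.cast_nonneg _) (hw h)

omit [DecidableEq σ] in
theorem Van.max {θ θ' : ℝ} {Q : MvPolynomial σ ℚ} (h : Van w θ Q) (h' : Van w θ' Q) :
    Van w (max θ θ') Q := fun m hm => max_le (h m hm) (h' m hm)

omit [DecidableEq σ] in
theorem Van.sum {ι : Type*} (s : Finset ι) {θ : ℝ} {Q : ι → MvPolynomial σ ℚ}
    (h : ∀ i ∈ s, Van w θ (Q i)) : Van w θ (∑ i ∈ s, Q i) := by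
  intro m hm
  rw [coeff_sum] at hm
  obtain ⟨i, hi, h2⟩ := exists_ne_zero_of_sum_ne_zero hm
  exact h i hi m h2

omit [DecidableEq σ] in
theorem Van.smul {θ : ℝ} {Q : MvPolynomial σ ℚ} (h : Van w θ Q) (c : ℚ) : Van w θ (c • Q) := by
  intro m hm
  rw [coeff_smul, smul_eq_mul] at hm
  exact h m (right_ne_zero_of_mul hm)

omit [DecidableEq σ] in
theorem Van.of_smul {θ : ℝ} {Q : MvPolynomial σ ℚ} {c : ℚ} (hc : c ≠ 0) (h : Van w θ (c • Q)) :
    Van w θ Q := by
  intro m hm
  apply h m
  rw [coeff_smul, smul_eq_mul]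
  exact mul_ne_zero hc hm

theorem Van.mul {θ θ' : ℝ} {Q Q' : MvPolynomial σ ℚ} (h : Van w θ Q) (h' : Van w θ' Q') :
    Van w (θ + θ') (Q * Q') := by
  intro m hm
  rw [coeff_mul] at hm
  obtain ⟨x, hx, h2⟩ := exists_ne_zero_of_sum_ne_zero hm
  rw [HasAntidiagonal.mem_antidiagonal] at hx
  rw [← hx, wt_add]
  exact add_le_add (h _ (left_ne_zero_of_mul h2)) (h' _ (right_ne_zero_of_mul h2))

theorem Van.one : Van w 0 (1 : MvPolynomial σ ℚ) := by
  intro m hm
  rw [coeff_one] at hm
  have : m = 0 := by by_contra h; simp [Ne.symm h] at hm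
  simp [this, wt]

theorem Van.prod {ι : Type*} (s : Finset ι) {θ : ι → ℝ} {Q : ι → MvPolynomial σ ℚ}
    (h : ∀ i ∈ s, Van w (θ i) (Q i)) : Van w (∑ i ∈ s, θ i) (∏ i ∈ s, Q i) := by
  classical
  induction s using Finset.induction_on with
  | empty => simpa using Van.one
  | insert a s ha ih =>
    rw [sum_insert ha, prod_insert ha]
    exact (h a (mem_insert_self _ _)).mul (ih fun i hi => h i (mem_insert_of_mem hi))

theorem Van.det {ι : Type*} [Fintype ι] [DecidableEq ι] {θ : ι → ℝ}
    {M : Matrix ι ι (MvPolynomial σ ℚ)} (h : ∀ i j, Van w (θ j) (M i j)) :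
    Van w (∑ j, θ j) M.det := by
  rw [Matrix.det_apply]
  apply Van.sum
  intro π _
  have h1 : Van w (∑ j, θ j) (∏ i, M (π i) i) := Van.prod _ fun i _ => h _ _
  rcases Int.units_eq_one_or (Equiv.Perm.sign π) with e | e
  · rw [e, one_smul]; exact h1
  · rw [e]
    have := h1.smul (-1)
    simpa using this

theorem Van.pderiv {θ : ℝ} {Q : MvPolynomial σ ℚ} (hQ : Van w θ Q) (h : σ) :
    Van w (θ - w h) (pderiv h Q) := by
  intro m hm
  rw [coeff_pderiv] at hm
  have := hQ _ (left_ne_zero_of_mul hm)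
  rw [wt_add, wt_single] at this
  linarith

theorem Van.DL {θ b : ℝ} {Q : MvPolynomial σ ℚ} (hQ : Van w θ Q) (hb : ∀ h, w h ≤ b)
    (L : List σ) : Van w (θ - L.length * b) (DL (fun h => MvPolynomial.pderiv h) L Q) := by
  induction L with
  | nil => simpa using hQ
  | cons h L ih =>
    rw [DL_cons]
    refine (ih.pderiv h).mono ?_
    have := hb h
    simp only [List.length_cons]
    push_cast
    linarith

end Van

section Tau

set_option linter.unusedSimpArgs false

variable {σ : Type*}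

/-- translation -/
noncomputable def tau (ξ : σ → ℚ) : MvPolynomial σ ℚ →ₐ[ℚ] MvPolynomial σ ℚ :=
  aeval fun h => X h + C (ξ h)

theorem tau_X (ξ : σ → ℚ) (h : σ) : tau ξ (X h) = X h + C (ξ h) := by simp [tau]

theorem tau_C (ξ : σ → ℚ) (c : ℚ) : tau ξ (C c) = C c := by simp [tau]

theorem pderiv_tau (ξ : σ → ℚ) (h : σ) (P : MvPolynomial σ ℚ) :
    pderiv h (tau ξ P) = tau ξ (pderiv h P) := by
  classical
  induction P using MvPolynomial.induction_on with
  | C a => simp [tau_C]
  | add p q hp hq => simp [hp, hq]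
  | mul_X p i hp =>
    rw [map_mul, pderiv_mul, pderiv_mul, map_add, map_mul, map_mul, hp, tau_X]
    congr 2
    by_cases e : h = i
    · subst e; simp
    · simp [pderiv_X, e]

theorem DL_tau (ξ : σ → ℚ) (L : List σ) (P : MvPolynomial σ ℚ) :
    DL (fun h => pderiv h) L (tau ξ P) = tau ξ (DL (fun h => pderiv h) L P) := by
  induction L with
  | nil => rfl
  | cons h L ih => rw [DL_cons, DL_cons, ih, pderiv_tau]

theorem tau_tau (ξ η : σ → ℚ) (P : MvPolynomial σ ℚ) :
    tau ξ (tau η P) = tau (ξ + η) P := by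
  induction P using MvPolynomial.induction_on with
  | C a => simp [tau_C]
  | add p q hp hq => simp [hp, hq]
  | mul_X p i hp =>
    rw [map_mul, map_mul, map_mul, hp, tau_X, tau_X, map_add, tau_X, tau_C]
    simp [add_assoc]

theorem tau_zero (P : MvPolynomial σ ℚ) : tau 0 P = P := by
  induction P using MvPolynomial.induction_on with
  | C a => simp [tau_C]
  | add p q hp hq => simp [hp, hq]
  | mul_X p i hp => rw [map_mul, hp, tau_X]; simp

theorem tau_ne_zero (ξ : σ → ℚ) {P : MvPolynomial σ ℚ} (hP : P ≠ 0) : tau ξ P ≠ 0 := by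
  intro h
  have := tau_tau (-ξ) ξ P
  rw [h, map_zero, neg_add_cancel, tau_zero] at this
  exact hP this.symm

theorem coeff_zero_tau (ξ : σ → ℚ) (P : MvPolynomial σ ℚ) :
    constantCoeff (tau ξ P) = aeval ξ P := by
  induction P using MvPolynomial.induction_on with
  | C a => simp [tau_C]
  | add p q hp hq => simp [hp, hq]
  | mul_X p i hp => rw [map_mul, map_mul, map_mul, hp, tau_X]; simp

theorem eq_zero_of_DL (n : ℕ) : ∀ (m : σ →₀ ℕ), m.degree = n → ∀ Q : MvPolynomial σ ℚ,
    (∀ L, constantCoeff (DL (fun h => pderiv h) L Q) = 0) → coeff m Q = 0 := by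
  classical
  induction n with
  | zero =>
    intro m hm Q hQ
    rw [Finsupp.degree_eq_zero_iff] at hm
    subst hm
    exact hQ []
  | succ n ih =>
    intro m hm Q hQ
    have h0 : m ≠ 0 := by rintro rfl; simp at hm
    obtain ⟨h, hh⟩ := Finsupp.ne_iff.1 h0
    have e : m = (m - Finsupp.single h 1) + Finsupp.single h 1 := by
      rw [tsub_add_cancel_of_le]
      rw [Finsupp.single_le_iff]
      simp at hh
      omega
    have hd : (m - Finsupp.single h 1).degree = n := by
      rw [e, map_add, Finsupp.degree_single] at hm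
      omega
    have := ih _ hd (pderiv h Q) (fun L => by
      have := hQ (L ++ [h])
      rwa [DL_append] at this)
    rw [coeff_pderiv, ← e] at this
    refine (mul_eq_zero.1 this).resolve_right ?_
    positivity

theorem taylor_mv (c : MvPolynomial σ ℚ) (hc : c ≠ 0) :
    ∃ ev : MvPolynomial σ ℚ →ₐ[ℚ] ℚ, ev c ≠ 0 ∧
      ∀ G : MvPolynomial σ ℚ, (∀ L, ev (DL (fun h => pderiv h) L G) = 0) → G = 0 := by
  obtain ⟨x, hx⟩ : ∃ x : σ → ℚ, eval x c ≠ 0 := by
    by_contra h
    push Not at h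
    exact hc (MvPolynomial.funext fun x => by simp [h x])
  refine ⟨aeval x, by simpa using hx, fun G hG => ?_⟩
  by_contra h0
  apply tau_ne_zero x h0
  ext m
  rw [coeff_zero]
  apply eq_zero_of_DL _ m rfl
  intro L
  rw [DL_tau, coeff_zero_tau, hG]

theorem DL_one (L : List Unit) (G : Polynomial ℚ) :
    DL (fun _ : Unit => Polynomial.derivative') L G = Polynomial.derivative^[L.length] G := by
  induction L with
  | nil => rfl
  | cons h L ih =>
    rw [DL_cons, ih, List.length_cons, Function.iterate_succ_apply']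
    rfl

theorem eval_iter (j : ℕ) (x : ℚ) (G : Polynomial ℚ) :
    (Polynomial.derivative^[j] G).eval x = j.factorial * (Polynomial.taylor x G).coeff j := by
  rw [← Polynomial.factorial_smul_hasseDeriv, Polynomial.taylor_coeff]
  simp

theorem taylor_one (c : Polynomial ℚ) (hc : c ≠ 0) :
    ∃ ev : Polynomial ℚ →ₐ[ℚ] ℚ, ev c ≠ 0 ∧
      ∀ G : Polynomial ℚ,
        (∀ L, ev (DL (fun _ : Unit => Polynomial.derivative') L G) = 0) → G = 0 := by
  obtain ⟨x, hx⟩ : ∃ x : ℚ, c.eval x ≠ 0 := by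
    by_contra h
    push Not at h
    exact hc (Polynomial.funext fun x => by simp [h x])
  refine ⟨Polynomial.aeval x, by simpa using hx, fun G hG => ?_⟩
  apply Polynomial.taylor_injective x
  rw [map_zero]
  ext j
  have := hG (List.replicate j ())
  rw [DL_one, List.length_replicate, Polynomial.coe_aeval_eq_eval, eval_iter] at this
  have h2 : (j.factorial : ℚ) ≠ 0 := by positivity
  simpa using (mul_eq_zero.1 this).resolve_left h2

end Tau

end Pool.Agent.Lib.Ridout
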