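import Mathlib

namespace Pool.Agent.Lib.Ridout

open Finset Matrix

variable {A : Type*} [CommRing A] [Algebra ℚ A] {σ : Type*}

/-- iterated derivation along a list -/
def DL (d : σ → Derivation ℚ A A) : List σ → A →ₗ[ℚ] A
  | [] => LinearMap.id
  | h :: L => (d h).toLinearMap ∘ₗ DL d L

@[simp] theorem DL_nil (d : σ → Derivation ℚ A A) (a : A) : DL d [] a = a := rfl

@[simp] theorem DL_cons (d : σ → Derivation ℚ A A) (h : σ) (L : List σ) (a : A) :
    DL d (h :: L) a = d h (DL d L a) := rfl

theorem DL_append (d : σ → Derivation ℚ A A) (L L' : List σ) (a : A) :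
    DL d (L ++ L') a = DL d L (DL d L' a) := by
  induction L with
  | nil => rfl
  | cons h L ih => simp [ih]

/-- generalized Wronskians -/
theorem gen_wronskian [IsDomain A] (d : σ → Derivation ℚ A A)
    (hT : ∀ c : A, c ≠ 0 → ∃ ev : A →ₐ[ℚ] ℚ, ev c ≠ 0 ∧
      ∀ G : A, (∀ L, ev (DL d L G) = 0) → G = 0) (n : ℕ) :
    ∀ φ : Fin n → A, LinearIndependent ℚ φ → ∃ L : Fin n → List σ,
      (∀ i, (L i).length < n) ∧ (Matrix.of fun i j => DL d (L i) (φ j)).det ≠ 0 := by
  induction n with
  | zero => intro φ _; exact ⟨fun i => i.elim0, fun i => i.elim0, by simp⟩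
  | succ n ih =>
    intro φ hφ
    obtain ⟨L', hL', hV⟩ := ih (fun k => φ k.succ) (hφ.comp _ (Fin.succ_injective n))
    by_contra hcon
    push Not at hcon
    set c : Fin (n + 1) → A := fun j => (-1) ^ (j : ℕ) *
      (Matrix.of fun i k => DL d (L' i) (φ (j.succAbove k))).det with hc
    have hc0 : c 0 ≠ 0 := by simpa [hc] using hV
    have H0 : ∀ L0 : List σ, L0.length ≤ n → ∑ j, c j * DL d L0 (φ j) = 0 := by
      intro L0 h0
      have := hcon (Fin.cons L0 L') (by
        intro i
        refine Fin.cases ?_ (fun i => ?_) i
        · simpa using Nat.lt_succ_of_le h0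
        · simpa using (hL' i).trans (Nat.lt_succ_self n))
      rw [Matrix.det_succ_row_zero] at this
      rw [← this]
      apply sum_congr rfl
      intro j _
      have e : (Matrix.of fun i j => DL d ((Fin.cons L0 L' : Fin (n + 1) → List σ) i)
          (φ j)).submatrix Fin.succ j.succAbove =
          Matrix.of fun i k => DL d (L' i) (φ (j.succAbove k)) := by
        ext i k; simp
      rw [e]
      simp only [hc, of_apply, Fin.cons_zero]
      ring
    have hder : ∀ (h : σ) (L : List σ), d h (∑ j, c j * DL d L (φ j)) =
        ∑ j, c j * DL d (h :: L) (φ j) + ∑ j, d h (c j) * DL d L (φ j) := by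
      intro h L
      rw [map_sum, ← sum_add_distrib]
      apply sum_congr rfl
      intro j _
      rw [Derivation.leibniz]
      simp only [smul_eq_mul, DL_cons]
      ring
    have H2 : ∀ h j, c 0 * d h (c j) = d h (c 0) * c j := by
      intro h
      have H1 : ∀ i, ∑ j, d h (c j) * DL d (L' i) (φ j) = 0 := by
        intro i
        have := hder h (L' i)
        rw [H0 _ (hL' i).le, H0 (h :: L' i) (by simpa using hL' i)] at this
        simpa using this.symm
      have hv : (Matrix.of fun i j => DL d (L' i) (φ j.succ)).mulVec
          (fun k : Fin n => c 0 * d h (c k.succ) - d h (c 0) * c k.succ) = 0 := by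
        funext i
        have a1 := H1 i
        have a2 := H0 _ (hL' i).le
        rw [Fin.sum_univ_succ] at a1 a2
        simp only [mulVec, dotProduct, of_apply, Pi.zero_apply]
        have : ∑ k : Fin n, DL d (L' i) (φ k.succ) *
            (c 0 * d h (c k.succ) - d h (c 0) * c k.succ) =
            c 0 * ∑ k : Fin n, d h (c k.succ) * DL d (L' i) (φ k.succ) -
            d h (c 0) * ∑ k : Fin n, c k.succ * DL d (L' i) (φ k.succ) := by
          rw [mul_sum, mul_sum, ← sum_sub_distrib]
          apply sum_congr rfl
          intro k _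
          ring
        rw [this]
        linear_combination c 0 * a1 - d h (c 0) * a2
      have hz := Matrix.eq_zero_of_mulVec_eq_zero hV hv
      intro j
      refine Fin.cases ?_ (fun k => ?_) j
      · ring
      · have := congrFun hz k
        simpa [sub_eq_zero] using this
    have H3 : ∀ L : List σ, ∑ j, c j * DL d L (φ j) = 0 := by
      intro L
      induction L with
      | nil => exact H0 [] (by simp)
      | cons h L ihL =>
        have a1 := hder h L
        rw [ihL, map_zero] at a1
        have a2 : c 0 * ∑ j, d h (c j) * DL d L (φ j) = 0 := by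
          have : c 0 * ∑ j, d h (c j) * DL d L (φ j) =
              d h (c 0) * ∑ j, c j * DL d L (φ j) := by
            rw [mul_sum, mul_sum]
            apply sum_congr rfl
            intro j _
            rw [← mul_assoc, H2]; ring
          rw [this, ihL, mul_zero]
        have a3 := (mul_eq_zero.1 a2).resolve_left hc0
        rw [a3, add_zero] at a1
        exact a1.symm
    obtain ⟨ev, hev, hG⟩ := hT _ hc0
    have hz := hG (∑ j, ev (c j) • φ j) (by
      intro L
      have := congrArg ev (H3 L)
      rw [map_zero, map_sum] at this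
      rw [map_sum, map_sum, ← this]
      apply sum_congr rfl
      intro j _
      simp)
    exact hev (Fintype.linearIndependent_iff.1 hφ _ hz 0)

end Pool.Agent.Lib.Ridout
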