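import Pool.Agent.Lib.Ridout.Van

namespace Pool.Agent.Lib.Ridout

open Finset MvPolynomial

theorem finSucc_tau {n : ℕ} (ξ : Fin (n + 1) → ℚ) (P : MvPolynomial (Fin (n + 1)) ℚ) :
    finSuccEquiv ℚ n (tau ξ P) = Polynomial.taylor (C (ξ 0))
      (Polynomial.map (tau (fun h => ξ h.succ)).toRingHom (finSuccEquiv ℚ n P)) := by
  have hC : ∀ a : ℚ, finSuccEquiv ℚ n (C a) = Polynomial.C (C a) := fun a =>
    (finSuccEquiv ℚ n).commutes a
  induction P using MvPolynomial.induction_on with
  | C a => rw [tau_C, hC]; simp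
  | add p q hp hq => rw [map_add, map_add, hp, hq, map_add, Polynomial.map_add, map_add]
  | mul_X p i hp =>
    rw [map_mul, map_mul, hp, map_mul, Polynomial.map_mul, Polynomial.taylor_mul, tau_X, map_add,
      hC]
    congr 1
    refine Fin.cases ?_ (fun k => ?_) i
    · rw [finSuccEquiv_X_zero]; simp
    · rw [finSuccEquiv_X_succ]; simp [tau_X]

theorem sum_max_ge (κ r : ℕ) (θ : ℝ) (h0 : 0 < θ) (h1 : θ ≤ 1) (hr : 0 < r) (hκ : κ ≤ r + 1) :
    κ * (θ ^ 2 / 8) ≤ ∑ s ∈ range κ, max 0 (θ - s * (1 / (r : ℝ))) := by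
  set N := min κ (⌊θ * r / 2⌋₊ + 1) with hN
  have hr' : (0 : ℝ) < r := by exact_mod_cast hr
  have a1 : ∑ s ∈ range N, θ / 2 ≤ ∑ s ∈ range κ, max 0 (θ - s * (1 / (r : ℝ))) := by
    calc ∑ s ∈ range N, θ / 2 ≤ ∑ s ∈ range N, max 0 (θ - s * (1 / (r : ℝ))) := by
          apply sum_le_sum
          intro s hs
          refine le_trans ?_ (le_max_right _ _)
          have b1 : s ≤ ⌊θ * r / 2⌋₊ := by
            have := mem_range.1 hs
            omega
          have b2 : (s : ℝ) ≤ θ * r / 2 :=
            (Nat.cast_le.2 b1).trans (Nat.floor_le (by positivity))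
          have b3 : (s : ℝ) * (1 / r) ≤ θ / 2 := by
            rw [mul_one_div, div_le_iff₀ hr']; linarith
          linarith
      _ ≤ _ := by
          apply sum_le_sum_of_subset_of_nonneg (range_subset_range.2 (min_le_left _ _))
          intro _ _ _
          exact le_max_left _ _
  rw [sum_const, card_range, nsmul_eq_mul] at a1
  have a2 : κ * θ / 4 ≤ N := by
    have hκ0 : (0 : ℝ) ≤ κ := by positivity
    rcases le_total κ (⌊θ * r / 2⌋₊ + 1) with h | h
    · rw [hN, min_eq_left h]; nlinarith
    · rw [hN, min_eq_right h]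
      have b1 := Nat.lt_floor_add_one (θ * r / 2)
      have b2 : (0 : ℝ) ≤ (⌊θ * r / 2⌋₊ : ℕ) := by positivity
      have b3 : (κ : ℝ) ≤ r + 1 := by exact_mod_cast hκ
      push_cast
      nlinarith
  nlinarith

theorem decompose {n : ℕ} (p : Polynomial (MvPolynomial (Fin n) ℚ)) (r : ℕ)
    (hr : ∀ s, r < s → p.coeff s = 0) :
    ∃ (κ : ℕ) (φ : Fin κ → MvPolynomial (Fin n) ℚ) (ψ : Fin κ → Polynomial ℚ),
      κ ≤ r + 1 ∧ LinearIndependent ℚ φ ∧ LinearIndependent ℚ ψ ∧
      (∀ l, ∃ c : Fin (r + 1) → ℚ, ∑ s, c s • p.coeff s = φ l) ∧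
      p = ∑ l, Polynomial.C (φ l) * (ψ l).map (algebraMap ℚ _) := by
  set Φ := Submodule.span ℚ (Set.range fun s : Fin (r + 1) => p.coeff s) with hΦ
  have hfin : Module.Finite ℚ Φ := Module.Finite.span_of_finite ℚ (Set.finite_range _)
  set b := Module.finBasis ℚ Φ with hb
  have hmem : ∀ s : Fin (r + 1), p.coeff s ∈ Φ := fun s => Submodule.subset_span ⟨s, rfl⟩
  set a : Fin (r + 1) → Fin (Module.finrank ℚ Φ) → ℚ := fun s l => b.repr ⟨_, hmem s⟩ l with ha
  set ψ : Fin (Module.finrank ℚ Φ) → Polynomial ℚ :=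
    fun l => ∑ s : Fin (r + 1), Polynomial.monomial s (a s l) with hψ
  have hψc : ∀ l (s : Fin (r + 1)), (ψ l).coeff s = a s l := by
    intro l s
    simp only [hψ, Polynomial.finsetSum_coeff, Polynomial.coeff_monomial]
    rw [sum_eq_single s]
    · simp
    · intro t _ ht; rw [if_neg]; exact fun h => ht (Fin.ext h)
    · simp
  have hψ0 : ∀ l s, r < s → (ψ l).coeff s = 0 := by
    intro l s hs
    simp only [hψ, Polynomial.finsetSum_coeff, Polynomial.coeff_monomial]
    apply sum_eq_zero
    intro t _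
    rw [if_neg]
    have := t.2
    omega
  refine ⟨Module.finrank ℚ Φ, fun l => (b l : MvPolynomial (Fin n) ℚ), ψ, ?_, ?_, ?_, ?_, ?_⟩
  · have := finrank_range_le_card (R := ℚ) (fun s : Fin (r + 1) => p.coeff s)
    simpa [Set.finrank] using this
  · exact b.linearIndependent.map' Φ.subtype (Submodule.ker_subtype Φ)
  · rw [Fintype.linearIndependent_iff]
    intro g hg
    have h1 : ∀ s, ∑ l, g l * a s l = 0 := by
      intro s
      have := congrArg (fun q => q.coeff s) hg
      simpa [Polynomial.finsetSum_coeff, hψc] using this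
    have h2 : ∀ x : Φ, ∑ l, g l * b.repr x l = 0 := by
      intro x
      obtain ⟨c, hc⟩ := (Submodule.mem_span_range_iff_exists_fun ℚ).1 x.2
      have e : x = ∑ s, c s • (⟨_, hmem s⟩ : Φ) := by
        apply Subtype.ext
        rw [← hc]
        simp
      rw [e]
      simp only [map_sum, map_smul, Finsupp.coe_finsetSum, Finset.sum_apply, Finsupp.smul_apply,
        smul_eq_mul, mul_sum]
      rw [sum_comm]
      apply sum_eq_zero
      intro s _
      have := congrArg (c s * ·) (h1 s)
      simp only [mul_sum, mul_zero] at this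
      rw [← this]
      apply sum_congr rfl
      intro l _
      simp only [ha]
      ring
    intro l
    have := h2 (b l)
    rw [sum_eq_single l] at this
    · simpa using this
    · intro t _ ht; simp [ht.symm]
    · simp
  · intro l
    exact (Submodule.mem_span_range_iff_exists_fun ℚ).1 (b l).2
  · ext1 s
    simp only [Polynomial.finsetSum_coeff, Polynomial.coeff_C_mul, Polynomial.coeff_map]
    rcases lt_or_ge r s with hs | hs
    · rw [hr s hs]
      symm
      apply sum_eq_zero
      intro l _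
      rw [hψ0 l s hs]; simp
    · have := congrArg Subtype.val (b.sum_repr ⟨_, hmem ⟨s, by omega⟩⟩)
      simp only [AddSubmonoidClass.coe_finsetSum, SetLike.val_smul] at this
      rw [← this]
      apply sum_congr rfl
      intro l _
      rw [hψc l ⟨s, by omega⟩, mul_comm, Algebra.smul_def]

theorem wt_cons {n : ℕ} (w : Fin (n + 1) → ℝ) (j : ℕ) (m : Fin n →₀ ℕ) :
    wt w (Finsupp.cons j m) = j * w 0 + wt (fun h => w h.succ) m := by
  simp [wt, Fin.sum_univ_succ]

/-- Roth's lemma for a fixed polynomial -/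
theorem zero_lemma (n : ℕ) : ∀ θ : ℝ, 0 < θ → ∃ ω : ℝ, 0 < ω ∧ ∀ r : Fin n → ℕ, (∀ h, 0 < r h) →
    (∀ h h', h < h' → (r h : ℝ) ≤ ω * r h') → ∀ P : MvPolynomial (Fin n) ℚ, P ≠ 0 →
    (∀ m, coeff m P ≠ 0 → ∀ h, m h ≤ r h) → ∃ E : Finset ℚ, ∀ ξ : Fin n → ℚ, (∀ h, ξ h ∉ E) →
      ¬ Van (fun h => 1 / (r h : ℝ)) θ (tau ξ P) := by
  induction n with
  | zero =>
    intro θ hθ
    refine ⟨1, one_pos, fun r _ _ P hP _ => ⟨∅, fun ξ _ hV => ?_⟩⟩
    obtain ⟨m, hm⟩ := MvPolynomial.ne_zero_iff.1 (tau_ne_zero ξ hP)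
    have := hV m hm
    simp [wt] at this
    linarith
  | succ n ih =>
    intro θ0 hθ0
    set θ := min θ0 1 / 2 with hθ
    have hθ1 : 0 < θ := by positivity
    have hθ2 : θ ≤ 1 := by have := min_le_right θ0 1; linarith
    have hθ3 : 2 * θ ≤ θ0 := by have := min_le_left θ0 1; linarith
    obtain ⟨ω, hω, ih⟩ := ih (θ ^ 2 / 8) (by positivity)
    refine ⟨min ω θ, by positivity, fun r hr hrω P hP hdeg => ?_⟩
    set p := finSuccEquiv ℚ n P with hp
    have hpc : ∀ s m, coeff m (p.coeff s) ≠ 0 → s ≤ r 0 ∧ ∀ h, m h ≤ r h.succ := by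
      intro s m hm
      rw [hp, finSuccEquiv_coeff_coeff] at hm
      exact ⟨by simpa using hdeg _ hm 0, fun h => by simpa using hdeg _ hm h.succ⟩
    obtain ⟨κ, φ, ψ, hκ, hφ, hψ, hφc, hdec⟩ := decompose p (r 0) (by
      intro s hs
      ext m
      by_contra hm
      have := (hpc s m hm).1
      omega)
    have hκ0 : 0 < κ := by
      rcases Nat.eq_zero_or_pos κ with rfl | h
      · exfalso
        apply hP
        apply (finSuccEquiv ℚ n).injective
        rw [← hp, hdec]; simp
      · exact h
    obtain ⟨L, hL, hV⟩ := gen_wronskian _ taylor_mv κ φ hφ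
    obtain ⟨L1, hL1, hU⟩ := gen_wronskian _ taylor_one κ ψ hψ
    set V := (Matrix.of fun i j => DL (fun h => pderiv h) (L i) (φ j)).det with hVd
    set U := (Matrix.of fun i j =>
      DL (fun _ : Unit => Polynomial.derivative') (L1 i) (ψ j)).det with hUd
    have hκ' : (0 : ℝ) < κ := by exact_mod_cast hκ0
    obtain ⟨E, hE⟩ := ih (fun h => κ * r h.succ) (fun h => Nat.mul_pos hκ0 (hr _))
      (by
        intro h h' hh
        have := hrω h.succ h'.succ (Fin.succ_lt_succ_iff.2 hh)
        have a1 : (0 : ℝ) ≤ r h'.succ := by positivity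
        have a2 := mul_le_mul_of_nonneg_right (min_le_left ω θ) a1
        push_cast
        nlinarith) V hV
      (by
        intro m hm h
        have a1 : ∀ i j, Van (fun t => if t = h then (-1 : ℝ) else 0) (-(r h.succ : ℝ))
            (DL (fun h => pderiv h) (L i) (φ j)) := by
          intro i j
          have b1 : Van (fun t => if t = h then (-1 : ℝ) else 0) (-(r h.succ : ℝ)) (φ j) := by
            obtain ⟨c, hc⟩ := hφc j
            rw [← hc]
            apply Van.sum
            intro s _
            apply Van.smul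
            intro m hm
            have := (hpc s m hm).2 h
            simp [wt, this]
          have := b1.DL (b := 0) (fun t => by split_ifs <;> norm_num) (L i)
          simpa using this
        have a2 := Van.det (M := Matrix.of fun i j => DL (fun h => pderiv h) (L i) (φ j))
          (θ := fun _ => -(r h.succ : ℝ)) a1 m hm
        simp [wt] at a2
        exact_mod_cast a2)
    refine ⟨E ∪ U.roots.toFinset, fun ξ hξ hVan => ?_⟩
    have hU0 : U.eval (ξ 0) ≠ 0 := by
      intro h
      apply hξ 0
      simp [hU, h]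
    apply hE (fun h => ξ h.succ) (fun h hh => hξ h.succ (mem_union_left _ hh))
    set τ := tau (fun h : Fin n => ξ h.succ) with hτ
    set w : Fin n → ℝ := fun h => 1 / (r h.succ : ℝ) with hw
    have hw0 : ∀ h, 0 ≤ w h := fun h => by positivity
    set Q : ℕ → MvPolynomial (Fin n) ℚ := fun j => (finSuccEquiv ℚ n (tau ξ P)).coeff j with hQ
    have hQ1 : ∀ j : ℕ, Van w (θ0 - j * (1 / (r 0 : ℝ))) (Q j) := by
      intro j m hm
      rw [hQ, finSuccEquiv_coeff_coeff] at hm
      have := hVan _ hm
      rw [wt_cons] at this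
      linarith
    have hQ2 : ∀ j : ℕ, (j.factorial : ℚ) • Q j =
        ∑ l, (Polynomial.derivative^[j] (ψ l)).eval (ξ 0) • τ (φ l) := by
      intro j
      simp only [hQ]
      rw [finSucc_tau, ← hp, hdec, Polynomial.map_sum, map_sum, Polynomial.finsetSum_coeff,
        smul_sum]
      apply sum_congr rfl
      intro l _
      have e1 : Polynomial.map τ.toRingHom (Polynomial.map (algebraMap ℚ _) (ψ l)) =
          Polynomial.map (algebraMap ℚ _) (ψ l) := by
        rw [Polynomial.map_map]
        congr 1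
        exact τ.comp_algebraMap
      have e2 : (C (ξ 0) : MvPolynomial (Fin n) ℚ) = algebraMap ℚ _ (ξ 0) := rfl
      rw [Polynomial.map_mul, Polynomial.map_C, ← hτ, e1, Polynomial.taylor_mul,
        Polynomial.taylor_C, Polynomial.coeff_C_mul, e2, ← Polynomial.map_taylor,
        Polynomial.coeff_map, eval_iter, mul_comm, ← Algebra.smul_def, smul_smul]
      rfl
    set M : Matrix (Fin κ) (Fin κ) (MvPolynomial (Fin n) ℚ) := Matrix.of fun i i' =>
      DL (fun h => pderiv h) (L i) ((((L1 i').length).factorial : ℚ) • Q (L1 i').length) with hM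
    have hM1 : M.det = U.eval (ξ 0) • τ V := by
      have e : M = τ.mapMatrix (Matrix.of fun i j => DL (fun h => pderiv h) (L i) (φ j)) *
          ((algebraMap ℚ (MvPolynomial (Fin n) ℚ)).mapMatrix
            ((Polynomial.evalRingHom (ξ 0)).mapMatrix (Matrix.of fun i j =>
              DL (fun _ : Unit => Polynomial.derivative') (L1 i) (ψ j)))).transpose := by
        ext1 i i'
        simp only [hM, Matrix.of_apply, Matrix.mul_apply, hQ2, map_sum, map_smul]
        apply sum_congr rfl
        intro l _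
        rw [hτ, DL_tau, Algebra.smul_def, mul_comm]
        simp [DL_one]
      rw [e, Matrix.det_mul, Matrix.det_transpose, ← RingHom.map_det, ← RingHom.map_det,
        ← AlgHom.map_det, mul_comm, Algebra.smul_def]
      rfl
    have hr0 : (0 : ℝ) < r 0 := by exact_mod_cast hr 0
    have hM2 : Van w (∑ i' : Fin κ, max 0 (θ - ((L1 i').length : ℕ) * (1 / (r 0 : ℝ)))) M.det := by
      apply Van.det
      intro i i'
      apply (Van.of_nonneg hw0 _).max
      have b1 : ∀ h, w h ≤ θ / r 0 := by
        intro h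
        have c1 := hrω 0 h.succ (Fin.succ_pos h)
        have c2 : (0 : ℝ) < r h.succ := by exact_mod_cast hr _
        have c3 := mul_le_mul_of_nonneg_right (min_le_right ω θ) c2.le
        simp only [hw]
        rw [div_le_div_iff₀ c2 hr0]
        linarith
      refine (((hQ1 _).smul _).DL b1 (L i)).mono ?_
      have c1 : ((L i).length : ℝ) ≤ r 0 := by
        have := hL i
        exact_mod_cast (show (L i).length ≤ r 0 by omega)
      have c2 : ((L i).length : ℝ) * (θ / r 0) ≤ θ := by
        rw [← mul_div_assoc, div_le_iff₀ hr0]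
        nlinarith
      linarith
    have hinj : Function.Injective (fun i : Fin κ => (⟨(L1 i).length, hL1 i⟩ : Fin κ)) := by
      intro i i' h
      by_contra hne
      apply hU
      apply Matrix.det_zero_of_row_eq hne
      funext j
      have : (L1 i).length = (L1 i').length := congrArg Fin.val h
      simp [DL_one, this]
    have hsum : ∑ i' : Fin κ, max 0 (θ - ((L1 i').length : ℕ) * (1 / (r 0 : ℝ))) =
        ∑ s ∈ range κ, max 0 (θ - s * (1 / (r 0 : ℝ))) := by
      rw [← Fin.sum_univ_eq_sum_range (fun s => max 0 (θ - s * (1 / (r 0 : ℝ))))]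
      exact (Finite.injective_iff_bijective.1 hinj).sum_comp
        (fun s : Fin κ => max 0 (θ - (s : ℕ) * (1 / (r 0 : ℝ))))
    rw [hsum, hM1] at hM2
    have h3 := (hM2.of_smul hU0).mono (sum_max_ge κ (r 0) θ hθ1 hθ2 (hr 0) hκ)
    intro m hm
    have h4 := h3 m hm
    have e : wt w m = κ * wt (fun h => 1 / ((κ * r h.succ : ℕ) : ℝ)) m := by
      simp only [wt, mul_sum, hw]
      apply sum_congr rfl
      intro h _
      push_cast
      field_simp
    rw [e] at h4
    exact le_of_mul_le_mul_left h4 hκ'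

end Pool.Agent.Lib.Ridout
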